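import Mathlib

/-!
# MP_9d0111: the `p`-metric mean dimension of a sofic action is its metric mean dimension

For every countable sofic group `Γ`, every sofic approximation `Σ`, every `1 ≤ p < ∞` and every
action of `Γ` by homeomorphisms on a compact metrizable space `X`,
`mdim_{Σ,M,p}(X,Γ) = mdim_{Σ,M}(X,Γ)`.

Idea: every dynamically generating continuous pseudometric `ρ` is replaced by
`ρ'(x,y) = ∑ 2^{-(n+1)} |ρ(x,xₙ) - ρ(y,xₙ)| ≤ ρ`, which is again continuous and dynamically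
generating but has covering numbers `exp (O (log² (1/ε)))`.  For such a tame pseudometric the
coordinates where two close points in the `p`-metric differ can be counted.
-/

namespace Pool.Agent.Results.MP_9d0111_an.PMetric

open Filter Topology
open scoped ENNReal

universe u v

/-- A sofic approximation (sequence) `σ_i : Γ → Sym(d_i)` of the group `Γ`. -/
structure SoficApprox (Γ : Type u) [Group Γ] where
  /-- the sizes `d_i` -/
  d : ℕ → ℕ
  /-- the maps `σ_i : Γ → Sym(d_i)` -/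
  σ : (i : ℕ) → Γ → Equiv.Perm (Fin (d i))
  d_tendsto : Tendsto d atTop atTop
  mul_tendsto : ∀ s t : Γ, Tendsto (fun i =>
    ((Finset.univ.filter (fun j : Fin (d i) => σ i (s * t) j = σ i s (σ i t j))).card : ℝ) /
      (d i : ℝ)) atTop (𝓝 1)
  free_tendsto : ∀ s : Γ, s ≠ 1 → Tendsto (fun i =>
    ((Finset.univ.filter (fun j : Fin (d i) => σ i s j = j)).card : ℝ) / (d i : ℝ)) atTop (𝓝 0)

/-- `ρ` is a continuous dynamically generating pseudometric on the `Γ`-space `X`. -/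
structure GenPseudo (Γ : Type u) (X : Type v) [Group Γ] [TopologicalSpace X] [MulAction Γ X]
    (ρ : X → X → ℝ) : Prop where
  refl : ∀ x, ρ x x = 0
  symm : ∀ x y, ρ x y = ρ y x
  triangle : ∀ x y z, ρ x z ≤ ρ x y + ρ y z
  cont : Continuous (fun q : X × X => ρ q.1 q.2)
  gen : ∀ x y, x ≠ y → ∃ s : Γ, 0 < ρ (s • x) (s • y)

/-- The pseudometric `ρ_p` on maps `{1,…,d} → X`, for `1 ≤ p ≤ ∞`. -/
noncomputable def dp {X : Type v} {d : ℕ} (p : ℝ≥0∞) (ρ : X → X → ℝ) (φ ψ : Fin d → X) : ℝ :=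
  if p = ⊤ then ⨆ j, ρ (φ j) (ψ j)
  else ((∑ j, ρ (φ j) (ψ j) ^ p.toReal) / (d : ℝ)) ^ (1 / p.toReal)

/-- `N_ε(Y, θ)`: the largest cardinality of an `ε`-separated subset of `Y` for `θ`. -/
noncomputable def Nsep {A : Type v} (ε : ℝ) (Y : Set A) (θ : A → A → ℝ) : ℕ∞ :=
  ⨆ (Z : Finset A) (_ : (Z : Set A) ⊆ Y ∧ ∀ z ∈ Z, ∀ w ∈ Z, z ≠ w → ε ≤ θ z w), (Z.card : ℕ∞)

section defs

variable {Γ : Type u} [Group Γ] (S : SoficApprox Γ) {X : Type v} [MulAction Γ X]

/-- The set `Map(ρ, F, δ, σ_i)`. -/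
def MapSet (ρ : X → X → ℝ) (F : Finset Γ) (δ : ℝ) (i : ℕ) : Set (Fin (S.d i) → X) :=
  {φ | ∀ s ∈ F, dp 2 ρ (fun j => φ (S.σ i s j)) (fun j => s • φ j) ≤ δ}

/-- The quantity `inf_{F,δ} limsup_i log N_ε(Map(ρ,F,δ,σ_i), ρ_p) / (d_i log (1/ε))`. -/
noncomputable def atScale (p : ℝ≥0∞) (ρ : X → X → ℝ) (ε : ℝ) : EReal :=
  ⨅ (F : Finset Γ) (δ : ℝ) (_ : 0 < δ), limsup (fun i : ℕ =>
    ENNReal.log ((Nsep ε (MapSet S ρ F δ i) (dp p ρ) : ℕ∞) : ℝ≥0∞) /
      (((S.d i : ℝ) * Real.log (1 / ε) : ℝ) : EReal)) atTop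

/-- `mdim_{Σ,p}(ρ)`. -/
noncomputable def mdim (p : ℝ≥0∞) (ρ : X → X → ℝ) : EReal :=
  liminf (fun ε : ℝ => atScale S p ρ ε) (𝓝[>] 0)

variable (X) in
/-- `mdim_{Σ,M,p}(X,Γ)`; for `p = ∞` this is the sofic metric mean dimension. -/
noncomputable def mdimM [TopologicalSpace X] (p : ℝ≥0∞) : EReal :=
  ⨅ (ρ : X → X → ℝ) (_ : GenPseudo Γ X ρ), mdim S p ρ

end defs

/-! ## Basic facts -/

lemma GenPseudo.nonneg {Γ : Type u} {X : Type v} [Group Γ] [TopologicalSpace X] [MulAction Γ X]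
    {ρ : X → X → ℝ} (h : GenPseudo Γ X ρ) (x y : X) : 0 ≤ ρ x y := by
  have h1 := h.triangle x y x
  rw [h.refl, h.symm y x] at h1
  linarith

lemma Nsep_mono {A : Type v} {ε ε' : ℝ} {Y Y' : Set A} {θ θ' : A → A → ℝ} (hε : ε' ≤ ε)
    (hY : Y ⊆ Y') (hθ : ∀ a b, θ a b ≤ θ' a b) : Nsep ε Y θ ≤ Nsep ε' Y' θ' := by
  unfold Nsep
  refine iSup₂_le fun Z hZ => ?_
  refine le_iSup₂_of_le Z ⟨hZ.1.trans hY, fun z hz w hw hzw => ?_⟩ le_rfl
  exact (hε.trans (hZ.2 z hz w hw hzw)).trans (hθ _ _)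

lemma dp_le_top {X : Type v} {d : ℕ} {p : ℝ≥0∞} (hp : 1 ≤ p) (hp' : p ≠ ⊤) {ρ : X → X → ℝ}
    (hρ : ∀ x y, 0 ≤ ρ x y) (φ ψ : Fin d → X) : dp p ρ φ ψ ≤ dp ⊤ ρ φ ψ := by
  have hpr : 1 ≤ p.toReal := by
    rw [← ENNReal.toReal_one]
    exact ENNReal.toReal_mono hp' hp
  have hpr0 : 0 < p.toReal := by linarith
  unfold dp
  rw [if_neg hp', if_pos rfl]
  set M := ⨆ j, ρ (φ j) (ψ j) with hM
  have hM0 : 0 ≤ M := Real.iSup_nonneg fun j => hρ _ _
  have hle : ∀ j, ρ (φ j) (ψ j) ≤ M := fun j =>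
    le_ciSup (f := fun j => ρ (φ j) (ψ j)) (Set.finite_range _).bddAbove j
  have h1 : (∑ j, ρ (φ j) (ψ j) ^ p.toReal) / (d : ℝ) ≤ M ^ p.toReal := by
    rcases Nat.eq_zero_or_pos d with h0 | h0
    · subst h0
      simp
      positivity
    · rw [div_le_iff₀ (by exact_mod_cast h0)]
      calc ∑ j, ρ (φ j) (ψ j) ^ p.toReal ≤ ∑ _j : Fin d, M ^ p.toReal :=
            Finset.sum_le_sum fun j _ => Real.rpow_le_rpow (hρ _ _) (hle j) hpr0.le
        _ = M ^ p.toReal * d := by simp [mul_comm]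
  have h2 : 0 ≤ (∑ j, ρ (φ j) (ψ j) ^ p.toReal) / (d : ℝ) :=
    div_nonneg (Finset.sum_nonneg fun j _ => Real.rpow_nonneg (hρ _ _) _) (by positivity)
  calc ((∑ j, ρ (φ j) (ψ j) ^ p.toReal) / (d : ℝ)) ^ (1 / p.toReal)
      ≤ (M ^ p.toReal) ^ (1 / p.toReal) := Real.rpow_le_rpow h2 h1 (by positivity)
    _ = M := by
        rw [← Real.rpow_mul hM0, mul_one_div_cancel hpr0.ne', Real.rpow_one]

/-- The easy inequality, for a fixed pseudometric. -/
lemma mdim_le_top {Γ : Type u} [Group Γ] (S : SoficApprox Γ) {X : Type v} [MulAction Γ X]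
    {p : ℝ≥0∞} (hp : 1 ≤ p) (hp' : p ≠ ⊤) {ρ : X → X → ℝ} (hρ : ∀ x y, 0 ≤ ρ x y) :
    mdim S p ρ ≤ mdim S ⊤ ρ := by
  unfold mdim
  refine liminf_le_liminf ?_
  have h1 : ∀ᶠ ε : ℝ in 𝓝[>] 0, ε < 1 := by
    have : ∀ᶠ ε : ℝ in 𝓝 0, ε < 1 := eventually_lt_nhds one_pos
    exact this.filter_mono nhdsWithin_le_nhds
  filter_upwards [h1, self_mem_nhdsWithin] with ε h1 h0
  have h0' : (0 : ℝ) < ε := h0
  unfold atScale
  refine iInf_mono fun F => iInf_mono fun δ => iInf_mono fun hδ => ?_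
  refine limsup_le_limsup (Eventually.of_forall fun i => ?_)
  refine EReal.div_le_div_right_of_nonneg ?_ ?_
  · have : 0 ≤ Real.log (1 / ε) := Real.log_nonneg (by
      rw [le_div_iff₀ h0']; linarith)
    have h3 : (0 : ℝ) ≤ (S.d i : ℝ) * Real.log (1 / ε) := by positivity
    exact_mod_cast h3
  · refine ENNReal.log_le_log ?_
    exact_mod_cast Nsep_mono le_rfl subset_rfl (dp_le_top hp hp' hρ)

/-! ## The tame pseudometric -/

/-- The embedding pseudometric attached to `ρ` and a sequence of points. -/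
noncomputable def tame {X : Type v} (ρ : X → X → ℝ) (e : ℕ → X) (x y : X) : ℝ :=
  ∑' n : ℕ, (1 / 2 : ℝ) ^ (n + 1) * |ρ x (e n) - ρ y (e n)|

section tame

variable {Γ : Type u} {X : Type v} [Group Γ] [TopologicalSpace X] [MulAction Γ X]
  {ρ : X → X → ℝ}

lemma abs_sub_le_rho (h : GenPseudo Γ X ρ) (x y z : X) : |ρ x z - ρ y z| ≤ ρ x y := by
  rw [abs_le]
  constructor
  · have := h.triangle y x z
    rw [h.symm y x] at this
    linarith
  · have := h.triangle x y z
    linarith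

omit [TopologicalSpace X] in
lemma tame_term_nonneg (e : ℕ → X) (x y : X) (n : ℕ) :
    0 ≤ (1 / 2 : ℝ) ^ (n + 1) * |ρ x (e n) - ρ y (e n)| := by positivity

lemma summable_half : Summable (fun n : ℕ => (1 / 2 : ℝ) ^ (n + 1)) := by
  have := (summable_geometric_of_lt_one (by norm_num : (0 : ℝ) ≤ 1 / 2) (by norm_num)).mul_left
    (1 / 2 : ℝ)
  refine this.congr fun n => ?_
  rw [pow_succ]; ring

lemma tsum_half : ∑' n : ℕ, (1 / 2 : ℝ) ^ (n + 1) = 1 := by
  have : ∀ n : ℕ, (1 / 2 : ℝ) ^ (n + 1) = (1 / 2) * (1 / 2) ^ n := fun n => by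
    rw [pow_succ]; ring
  simp_rw [this]
  rw [tsum_mul_left, tsum_geometric_of_lt_one (by norm_num) (by norm_num)]
  norm_num

lemma tame_summable (h : GenPseudo Γ X ρ) (e : ℕ → X) (x y : X) :
    Summable (fun n : ℕ => (1 / 2 : ℝ) ^ (n + 1) * |ρ x (e n) - ρ y (e n)|) := by
  refine Summable.of_nonneg_of_le (tame_term_nonneg e x y)
    (fun n => mul_le_mul_of_nonneg_left (abs_sub_le_rho h x y (e n)) (by positivity))
    (summable_half.mul_right (ρ x y))

lemma tame_le (h : GenPseudo Γ X ρ) (e : ℕ → X) (x y : X) : tame ρ e x y ≤ ρ x y := by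
  unfold tame
  calc ∑' n : ℕ, (1 / 2 : ℝ) ^ (n + 1) * |ρ x (e n) - ρ y (e n)|
      ≤ ∑' n : ℕ, (1 / 2 : ℝ) ^ (n + 1) * ρ x y :=
        (tame_summable h e x y).tsum_le_tsum
          (fun n => mul_le_mul_of_nonneg_left (abs_sub_le_rho h x y (e n)) (by positivity))
          (summable_half.mul_right (ρ x y))
    _ = ρ x y := by rw [tsum_mul_right, tsum_half, one_mul]

lemma exists_bound [CompactSpace X] (h : GenPseudo Γ X ρ) :
    ∃ B : ℕ, 1 ≤ B ∧ ∀ x y, ρ x y ≤ B := by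
  have hc : IsCompact (Set.range fun q : X × X => ρ q.1 q.2) := isCompact_range h.cont
  obtain ⟨M, hM⟩ := hc.bddAbove
  obtain ⟨B, hB⟩ := exists_nat_gt (max M 1)
  refine ⟨B, ?_, fun x y => ?_⟩
  · have : (1 : ℝ) < B := lt_of_le_of_lt (le_max_right _ _) hB
    exact_mod_cast this.le
  · exact (hM ⟨(x, y), rfl⟩).trans ((le_max_left _ _).trans hB.le)

lemma tame_gen [CompactSpace X] (h : GenPseudo Γ X ρ) (e : ℕ → X) (he : DenseRange e) :
    GenPseudo Γ X (tame ρ e) where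
  refl x := by simp [tame]
  symm x y := by
    unfold tame
    congr 1
    ext n
    rw [abs_sub_comm]
  triangle x y z := by
    unfold tame
    rw [← (tame_summable h e x y).tsum_add (tame_summable h e y z)]
    refine (tame_summable h e x z).tsum_le_tsum (fun n => ?_)
      ((tame_summable h e x y).add (tame_summable h e y z))
    rw [← mul_add]
    refine mul_le_mul_of_nonneg_left ?_ (by positivity)
    calc |ρ x (e n) - ρ z (e n)| = |(ρ x (e n) - ρ y (e n)) + (ρ y (e n) - ρ z (e n))| := by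
          congr 1; ring
      _ ≤ _ := abs_add_le _ _
  cont := by
    obtain ⟨B, -, hB⟩ := exists_bound h
    unfold tame
    refine continuous_tsum (u := fun n => (1 / 2 : ℝ) ^ (n + 1) * B) (fun n => ?_)
      (summable_half.mul_right _) (fun n q => ?_)
    · have h1 : Continuous fun q : X × X => ρ q.1 (e n) :=
        h.cont.comp (continuous_fst.prodMk continuous_const)
      have h2 : Continuous fun q : X × X => ρ q.2 (e n) :=
        h.cont.comp (continuous_snd.prodMk continuous_const)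
      exact continuous_const.mul (h1.sub h2).abs
    · rw [Real.norm_eq_abs, abs_of_nonneg (tame_term_nonneg e q.1 q.2 n)]
      exact mul_le_mul_of_nonneg_left ((abs_sub_le_rho h _ _ _).trans (hB _ _)) (by positivity)
  gen x y hxy := by
    obtain ⟨s, hs⟩ := h.gen x y hxy
    refine ⟨s, ?_⟩
    set a := s • x
    set b := s • y
    -- pick `e n` close to `a`
    have hcont : Continuous fun z : X => ρ a z - ρ b z :=
      (h.cont.comp (continuous_const.prodMk continuous_id)).sub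
        (h.cont.comp (continuous_const.prodMk continuous_id))
    have hopen : IsOpen {z : X | ρ a z - ρ b z < 0} := isOpen_lt hcont continuous_const
    have hne : ({z : X | ρ a z - ρ b z < 0}).Nonempty := by
      refine ⟨a, ?_⟩
      change ρ a a - ρ b a < 0
      rw [h.refl, h.symm b a]
      linarith
    obtain ⟨n, hn⟩ := he.exists_mem_open hopen hne
    have hn' : ρ a (e n) - ρ b (e n) < 0 := hn
    unfold tame
    refine (tame_summable h e a b).tsum_pos (tame_term_nonneg e a b) n ?_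
    have : 0 < |ρ a (e n) - ρ b (e n)| := abs_pos.2 hn'.ne
    positivity

lemma tame_cells [CompactSpace X] (h : GenPseudo Γ X ρ) (e : ℕ → X) :
    ∃ C : ℝ, 0 ≤ C ∧ ∀ N : ℕ, ∃ (K : ℕ) (cell : X → Fin K), 0 < K ∧
      (∀ x y, cell x = cell y → tame ρ e x y < (1 / 2) ^ N) ∧
      Real.log K ≤ C * ((N : ℝ) + 1) ^ 2 := by
  obtain ⟨B, hB1, hB⟩ := exists_bound h
  refine ⟨(B + 1) * (B + 2), by positivity, fun N => ?_⟩
  set M := N + B + 1 with hM
  let c : X → Fin M → Fin (B * 2 ^ (N + 1) + 1) := fun x n =>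
    ⟨⌊ρ x (e n) * 2 ^ (N + 1)⌋₊, by
      have h1 : ρ x (e n) * 2 ^ (N + 1) ≤ B * 2 ^ (N + 1) :=
        mul_le_mul_of_nonneg_right (hB _ _) (by positivity)
      have h2 : ⌊ρ x (e n) * 2 ^ (N + 1)⌋₊ ≤ B * 2 ^ (N + 1) := by
        apply Nat.floor_le_of_le
        push_cast
        exact h1
      omega⟩
  refine ⟨Fintype.card (Fin M → Fin (B * 2 ^ (N + 1) + 1)),
    fun x => Fintype.equivFin _ (c x), Fintype.card_pos, fun x y hxy => ?_, ?_⟩
  · have hc : c x = c y := (Fintype.equivFin _).injective hxy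
    have hcn : ∀ n : ℕ, n < M → |ρ x (e n) - ρ y (e n)| ≤ (1 / 2) ^ (N + 1) := by
      intro n hn
      have h1 := congrFun hc ⟨n, hn⟩
      have h2 : ⌊ρ x (e n) * 2 ^ (N + 1)⌋₊ = ⌊ρ y (e n) * 2 ^ (N + 1)⌋₊ := by
        simpa [c] using h1
      have hx0 : 0 ≤ ρ x (e n) * 2 ^ (N + 1) := mul_nonneg (h.nonneg _ _) (by positivity)
      have hy0 : 0 ≤ ρ y (e n) * 2 ^ (N + 1) := mul_nonneg (h.nonneg _ _) (by positivity)
      have a1 := Nat.floor_le hx0
      have a2 := Nat.lt_floor_add_one (ρ x (e n) * 2 ^ (N + 1))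
      have a3 := Nat.floor_le hy0
      have a4 := Nat.lt_floor_add_one (ρ y (e n) * 2 ^ (N + 1))
      rw [h2] at a1 a2
      have h3 : |ρ x (e n) * 2 ^ (N + 1) - ρ y (e n) * 2 ^ (N + 1)| ≤ 1 := by
        rw [abs_le]; constructor <;> linarith
      rw [← sub_mul, abs_mul, abs_of_pos (by positivity : (0 : ℝ) < 2 ^ (N + 1))] at h3
      rw [one_div, inv_pow, ← one_div, le_div_iff₀ (by positivity)]
      exact h3
    unfold tame
    rw [← (tame_summable h e x y).sum_add_tsum_nat_add M]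
    have hA : ∑ i ∈ Finset.range M, (1 / 2 : ℝ) ^ (i + 1) * |ρ x (e i) - ρ y (e i)| ≤
        (1 / 2) ^ (N + 1) := by
      calc ∑ i ∈ Finset.range M, (1 / 2 : ℝ) ^ (i + 1) * |ρ x (e i) - ρ y (e i)|
          ≤ ∑ i ∈ Finset.range M, (1 / 2 : ℝ) ^ (i + 1) * (1 / 2) ^ (N + 1) :=
            Finset.sum_le_sum fun i hi => mul_le_mul_of_nonneg_left
              (hcn i (Finset.mem_range.1 hi)) (by positivity)
        _ = (∑ i ∈ Finset.range M, (1 / 2 : ℝ) ^ (i + 1)) * (1 / 2) ^ (N + 1) := by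
            rw [Finset.sum_mul]
        _ ≤ 1 * (1 / 2) ^ (N + 1) := by
            refine mul_le_mul_of_nonneg_right ?_ (by positivity)
            exact (summable_half.sum_le_tsum _ (fun i _ => by positivity)).trans_eq tsum_half
        _ = _ := one_mul _
    have hT : ∑' i : ℕ, (1 / 2 : ℝ) ^ (i + M + 1) * |ρ x (e (i + M)) - ρ y (e (i + M))| ≤
        (1 / 2) ^ M * B := by
      have hs : Summable fun i : ℕ =>
          (1 / 2 : ℝ) ^ (i + M + 1) * |ρ x (e (i + M)) - ρ y (e (i + M))| :=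
        (summable_nat_add_iff M).2 (tame_summable h e x y)
      calc ∑' i : ℕ, (1 / 2 : ℝ) ^ (i + M + 1) * |ρ x (e (i + M)) - ρ y (e (i + M))|
          ≤ ∑' i : ℕ, (1 / 2 : ℝ) ^ (i + 1) * ((1 / 2) ^ M * B) := by
            refine hs.tsum_le_tsum (fun i => ?_) (summable_half.mul_right _)
            rw [show i + M + 1 = (i + 1) + M by ring, pow_add, mul_assoc]
            refine mul_le_mul_of_nonneg_left ?_ (by positivity)
            refine mul_le_mul_of_nonneg_left ?_ (by positivity)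
            exact (abs_sub_le_rho h _ _ _).trans (hB _ _)
        _ = (1 / 2) ^ M * B := by rw [tsum_mul_right, tsum_half, one_mul]
    have hBlt : (B : ℝ) < 2 ^ B := by exact_mod_cast Nat.lt_two_pow_self
    have hT' : (1 / 2 : ℝ) ^ M * B < (1 / 2) ^ (N + 1) := by
      rw [hM, show N + B + 1 = (N + 1) + B by ring, pow_add, mul_assoc]
      have : (1 / 2 : ℝ) ^ B * B < 1 := by
        rw [one_div, inv_pow, inv_mul_lt_iff₀ (by positivity), mul_one]
        exact hBlt
      calc (1 / 2 : ℝ) ^ (N + 1) * ((1 / 2) ^ B * B) < (1 / 2) ^ (N + 1) * 1 :=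
            mul_lt_mul_of_pos_left this (by positivity)
        _ = _ := mul_one _
    have hfin : (1 / 2 : ℝ) ^ (N + 1) + (1 / 2) ^ (N + 1) = (1 / 2) ^ N := by
      rw [pow_succ]; ring
    linarith
  · have hcard : Fintype.card (Fin M → Fin (B * 2 ^ (N + 1) + 1)) =
        (B * 2 ^ (N + 1) + 1) ^ M := by simp
    rw [hcard]
    push_cast
    rw [Real.log_pow]
    have hB2 : ((B : ℝ) * 2 ^ (N + 1) + 1) ≤ 2 ^ (B + N + 2) := by
      have h1 : B + 1 ≤ 2 ^ B := Nat.lt_two_pow_self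
      have h2 : B * 2 ^ (N + 1) + 1 ≤ 2 ^ (B + N + 2) := by
        calc B * 2 ^ (N + 1) + 1 ≤ (B + 1) * 2 ^ (N + 1) := by
              have : 1 ≤ 2 ^ (N + 1) := Nat.one_le_two_pow
              nlinarith
          _ ≤ 2 ^ B * 2 ^ (N + 1) := Nat.mul_le_mul_right _ h1
          _ = 2 ^ (B + N + 1) := by rw [← pow_add]; ring_nf
          _ ≤ 2 ^ (B + N + 2) := Nat.pow_le_pow_right (by norm_num) (by omega)
      exact_mod_cast h2
    have hlog : Real.log ((B : ℝ) * 2 ^ (N + 1) + 1) ≤ (B + N + 2 : ℝ) := by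
      calc Real.log ((B : ℝ) * 2 ^ (N + 1) + 1) ≤ Real.log (2 ^ (B + N + 2)) :=
            Real.log_le_log (by positivity) hB2
        _ = ((B + N + 2 : ℕ) : ℝ) * Real.log 2 := Real.log_pow _ _
        _ ≤ ((B + N + 2 : ℕ) : ℝ) * 1 := by
            refine mul_le_mul_of_nonneg_left ?_ (by positivity)
            have := Real.log_two_lt_d9
            linarith
        _ = _ := by push_cast; ring
    have hMr : (M : ℝ) = N + B + 1 := by rw [hM]; push_cast; ring
    calc (M : ℝ) * Real.log ((B : ℝ) * 2 ^ (N + 1) + 1) ≤ M * (B + N + 2) :=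
          mul_le_mul_of_nonneg_left hlog (by positivity)
      _ ≤ ((B + 1) * (B + 2)) * ((N : ℝ) + 1) ^ 2 := by
          rw [hMr]
          have hb : (0 : ℝ) ≤ B := by positivity
          have hn : (0 : ℝ) ≤ N := by positivity
          have e1 : (N : ℝ) + B + 1 ≤ (B + 1) * (N + 1) := by nlinarith [mul_nonneg hb hn]
          have e2 : (B : ℝ) + N + 2 ≤ (B + 2) * (N + 1) := by nlinarith [mul_nonneg hb hn]
          calc ((N : ℝ) + B + 1) * (B + N + 2) ≤ ((B + 1) * (N + 1)) * ((B + 2) * (N + 1)) :=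
                mul_le_mul e1 e2 (by positivity) (by positivity)
            _ = _ := by ring

end tame

/-! ## Comparison of the sets `Map` for two generating pseudometrics -/

section compare

variable {Γ : Type u} [Group Γ] {X : Type v} [TopologicalSpace X] [CompactSpace X]
  [MulAction Γ X] [ContinuousConstSMul Γ X] {ρ ρ' : X → X → ℝ}

/-- Uniform comparison of two generating pseudometrics. -/
lemma exists_finset_compare (h : GenPseudo Γ X ρ) (h' : GenPseudo Γ X ρ') {κ : ℝ} (hκ : 0 < κ) :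
    ∃ (K : Finset Γ) (τ : ℝ), 0 < τ ∧
      ∀ x y, (∀ t ∈ K, ρ' (t • x) (t • y) < τ) → ρ x y < κ := by
  classical
  set D : Set (X × X) := {q | κ ≤ ρ q.1 q.2} with hD
  have hDc : IsCompact D := (isClosed_le continuous_const h.cont).isCompact
  let U : Γ × ℕ → Set (X × X) := fun a =>
    {q | 1 / ((a.2 : ℝ) + 1) < ρ' (a.1 • q.1) (a.1 • q.2)}
  have hU : ∀ a, IsOpen (U a) := fun a => by
    refine isOpen_lt continuous_const ?_
    exact h'.cont.comp (((continuous_const_smul a.1).comp continuous_fst).prodMk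
      ((continuous_const_smul a.1).comp continuous_snd))
  have hcov : D ⊆ ⋃ a, U a := by
    intro q hq
    have hq' : κ ≤ ρ q.1 q.2 := hq
    have hne : q.1 ≠ q.2 := by
      intro hh
      rw [hh, h.refl] at hq'
      linarith
    obtain ⟨s, hs⟩ := h'.gen _ _ hne
    obtain ⟨n, hn⟩ := exists_nat_one_div_lt hs
    exact Set.mem_iUnion.2 ⟨(s, n), hn⟩
  obtain ⟨T, hT⟩ := hDc.elim_finite_subcover U hU hcov
  rcases T.eq_empty_or_nonempty with h0 | h0
  · refine ⟨∅, 1, one_pos, fun x y _ => ?_⟩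
    by_contra hcon
    have : (x, y) ∈ D := not_lt.1 hcon
    have := hT this
    simp [h0] at this
  · obtain ⟨a₀, ha₀, hmax⟩ := T.exists_max_image (fun a => a.2) h0
    refine ⟨T.image Prod.fst, 1 / ((a₀.2 : ℝ) + 1), by positivity, fun x y hxy => ?_⟩
    by_contra hcon
    have hmem : (x, y) ∈ D := not_lt.1 hcon
    obtain ⟨a, ha, hqa⟩ := Set.mem_iUnion₂.1 (hT hmem)
    have h1 := hxy a.1 (Finset.mem_image_of_mem _ ha)
    have h2 : 1 / ((a.2 : ℝ) + 1) < ρ' (a.1 • x) (a.1 • y) := hqa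
    have h3 : 1 / ((a₀.2 : ℝ) + 1) ≤ 1 / ((a.2 : ℝ) + 1) := by
      apply one_div_le_one_div_of_le (by positivity)
      have := hmax a ha
      have : (a.2 : ℝ) ≤ a₀.2 := by exact_mod_cast this
      linarith
    linarith

omit [TopologicalSpace X] [CompactSpace X] [MulAction Γ X] [ContinuousConstSMul Γ X] in
lemma dp_two_le_iff {d : ℕ} (hρ : ∀ x y, 0 ≤ ρ x y) (φ ψ : Fin d → X) {δ : ℝ} (hδ : 0 ≤ δ) :
    dp 2 ρ φ ψ ≤ δ ↔ ∑ j, ρ (φ j) (ψ j) ^ 2 ≤ δ ^ 2 * d := by
  have h2 : (2 : ℝ≥0∞).toReal = 2 := by simp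
  unfold dp
  rw [if_neg (by simp), h2]
  have hs0 : 0 ≤ ∑ j, ρ (φ j) (ψ j) ^ (2 : ℝ) :=
    Finset.sum_nonneg fun j _ => Real.rpow_nonneg (hρ _ _) _
  rcases Nat.eq_zero_or_pos d with h0 | h0
  · subst h0
    simp [hδ]
  · have hd : (0 : ℝ) < d := by exact_mod_cast h0
    rw [one_div, Real.rpow_inv_le_iff_of_pos (by positivity) hδ (by norm_num),
      div_le_iff₀ hd]
    simp only [Real.rpow_two]

omit [TopologicalSpace X] [CompactSpace X] [MulAction Γ X] [ContinuousConstSMul Γ X] in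
/-- Markov's inequality for the number of bad coordinates. -/
lemma card_bad_le {d : ℕ} (hρ : ∀ x y, 0 ≤ ρ x y) (φ ψ : Fin d → X) {δ τ : ℝ} (hδ : 0 ≤ δ)
    (hτ : 0 < τ) (h : dp 2 ρ φ ψ ≤ δ) :
    ((Finset.univ.filter fun j => τ ≤ ρ (φ j) (ψ j)).card : ℝ) ≤ δ ^ 2 / τ ^ 2 * d := by
  rw [dp_two_le_iff hρ φ ψ hδ] at h
  have h1 : ((Finset.univ.filter fun j => τ ≤ ρ (φ j) (ψ j)).card : ℝ) * τ ^ 2 ≤
      ∑ j, ρ (φ j) (ψ j) ^ 2 := by
    calc ((Finset.univ.filter fun j => τ ≤ ρ (φ j) (ψ j)).card : ℝ) * τ ^ 2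
        = ∑ j ∈ Finset.univ.filter fun j => τ ≤ ρ (φ j) (ψ j), τ ^ 2 := by
          rw [Finset.sum_const, nsmul_eq_mul]
      _ ≤ ∑ j ∈ Finset.univ.filter fun j => τ ≤ ρ (φ j) (ψ j), ρ (φ j) (ψ j) ^ 2 := by
          refine Finset.sum_le_sum fun j hj => ?_
          have := (Finset.mem_filter.1 hj).2
          exact pow_le_pow_left₀ hτ.le this 2
      _ ≤ ∑ j, ρ (φ j) (ψ j) ^ 2 :=
          Finset.sum_le_sum_of_subset_of_nonneg (Finset.filter_subset _ _)
            fun j _ _ => by positivity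
  rw [div_mul_eq_mul_div, le_div_iff₀ (by positivity)]
  exact h1.trans h

lemma map_compare (S : SoficApprox Γ) (h : GenPseudo Γ X ρ) (h' : GenPseudo Γ X ρ')
    (F : Finset Γ) {δ : ℝ} (hδ : 0 < δ) :
    ∃ (F' : Finset Γ) (δ' : ℝ), 0 < δ' ∧ ∀ᶠ i in atTop,
      MapSet S ρ' F' δ' i ⊆ MapSet S ρ F δ i := by
  classical
  obtain ⟨B, hB1, hB⟩ := exists_bound h
  have hB1' : (1 : ℝ) ≤ B := by exact_mod_cast hB1
  obtain ⟨K, τ, hτ, hK⟩ := exists_finset_compare h h' (half_pos hδ)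
  set β : ℝ := δ ^ 2 / (2 * (B : ℝ) ^ 2) with hβ
  have hβ0 : 0 < β := by positivity
  set k : ℝ := (K.card : ℝ) + 1 with hk
  have hk0 : 0 < k := by positivity
  -- `δ'`
  set δ' : ℝ := Real.sqrt (β / (4 * k)) * (τ / 2) with hδ'
  have hδ'0 : 0 < δ' := by positivity
  have hδ'2 : δ' ^ 2 / (τ / 2) ^ 2 = β / (4 * k) := by
    rw [hδ', mul_pow, Real.sq_sqrt (by positivity)]
    field_simp
  refine ⟨K ∪ Finset.image₂ (· * ·) K F, δ', hδ'0, ?_⟩
  have hev : ∀ᶠ i in atTop, ∀ t ∈ K, ∀ s ∈ F,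
      ((Finset.univ.filter (fun j : Fin (S.d i) => ¬ S.σ i (t * s) j = S.σ i t (S.σ i s j))).card
        : ℝ) ≤ β / (2 * k) * S.d i := by
    have h1 : ∀ t ∈ K, ∀ s ∈ F, ∀ᶠ i in atTop,
      ((Finset.univ.filter (fun j : Fin (S.d i) => ¬ S.σ i (t * s) j = S.σ i t (S.σ i s j))).card
        : ℝ) ≤ β / (2 * k) * S.d i := by
      intro t _ s _
      have hlt : 1 - β / (2 * k) < 1 := by
        have : 0 < β / (2 * k) := by positivity
        linarith
      filter_upwards [(S.mul_tendsto t s).eventually (eventually_gt_nhds hlt),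
        S.d_tendsto.eventually (eventually_gt_atTop 0)] with i hi hdi
      have hd : (0 : ℝ) < S.d i := by exact_mod_cast hdi
      rw [lt_div_iff₀ hd] at hi
      have hsum := Finset.card_filter_add_card_filter_not (s := (Finset.univ : Finset (Fin (S.d i))))
        (fun j : Fin (S.d i) => S.σ i (t * s) j = S.σ i t (S.σ i s j))
      rw [Finset.card_univ, Fintype.card_fin] at hsum
      have hsum' : ((Finset.univ.filter
          (fun j : Fin (S.d i) => S.σ i (t * s) j = S.σ i t (S.σ i s j))).card : ℝ) +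
          ((Finset.univ.filter
          (fun j : Fin (S.d i) => ¬ S.σ i (t * s) j = S.σ i t (S.σ i s j))).card : ℝ) =
          S.d i := by exact_mod_cast hsum
      linarith
    exact (Finset.eventually_all K).2 fun t ht => (Finset.eventually_all F).2 fun s hs => h1 t ht s hs
  filter_upwards [hev] with i hi φ hφ s hs
  -- the bad set
  have hφ' : ∀ s ∈ K ∪ Finset.image₂ (· * ·) K F,
    dp 2 ρ' (fun j => φ (S.σ i s j)) (fun j => s • φ j) ≤ δ' := hφ
  have hd0 : (0 : ℝ) ≤ S.d i := by positivity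
  let A1 : Γ → Finset (Fin (S.d i)) := fun t =>
    Finset.univ.filter fun j => τ / 2 ≤ ρ' (φ (S.σ i (t * s) j)) ((t * s) • φ j)
  let A2 : Γ → Finset (Fin (S.d i)) := fun t =>
    Finset.univ.filter fun j => τ / 2 ≤ ρ' (φ (S.σ i t (S.σ i s j))) (t • φ (S.σ i s j))
  let A3 : Γ → Finset (Fin (S.d i)) := fun t =>
    Finset.univ.filter fun j => ¬ S.σ i (t * s) j = S.σ i t (S.σ i s j)
  have hA1 : ∀ t ∈ K, ((A1 t).card : ℝ) ≤ β / (4 * k) * S.d i := by
    intro t ht
    rw [← hδ'2]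
    exact card_bad_le h'.nonneg _ _ hδ'0.le (by positivity)
      (hφ' (t * s) (Finset.mem_union_right _ (Finset.mem_image₂_of_mem ht hs)))
  have hA2 : ∀ t ∈ K, ((A2 t).card : ℝ) ≤ β / (4 * k) * S.d i := by
    intro t ht
    have h1 := card_bad_le h'.nonneg _ _ hδ'0.le (by positivity : 0 < τ / 2)
      (hφ' t (Finset.mem_union_left _ ht))
    rw [hδ'2] at h1
    refine le_trans ?_ h1
    have : (A2 t).card ≤ (Finset.univ.filter fun j =>
        τ / 2 ≤ ρ' (φ (S.σ i t j)) (t • φ j)).card := by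
      refine Finset.card_le_card_of_injOn (S.σ i s) (fun j hj => ?_) (S.σ i s).injective.injOn
      have := (Finset.mem_filter.1 hj).2
      simpa using this
    exact_mod_cast this
  let A : Finset (Fin (S.d i)) := K.biUnion fun t => A1 t ∪ A2 t ∪ A3 t
  have hAcard : (A.card : ℝ) ≤ β * S.d i := by
    have h1 : (A.card : ℝ) ≤ ∑ t ∈ K, (((A1 t).card : ℝ) + (A2 t).card + (A3 t).card) := by
      have h2 : A.card ≤ ∑ t ∈ K, ((A1 t).card + (A2 t).card + (A3 t).card) := by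
        refine Finset.card_biUnion_le.trans (Finset.sum_le_sum fun t _ => ?_)
        exact (Finset.card_union_le _ _).trans (Nat.add_le_add_right (Finset.card_union_le _ _) _)
      exact_mod_cast h2
    refine h1.trans ?_
    calc ∑ t ∈ K, (((A1 t).card : ℝ) + (A2 t).card + (A3 t).card)
        ≤ ∑ _t ∈ K, β / k * S.d i := by
          refine Finset.sum_le_sum fun t ht => ?_
          have e1 := hA1 t ht
          have e2 := hA2 t ht
          have e3 : ((A3 t).card : ℝ) ≤ β / (2 * k) * S.d i := hi t ht s hs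
          have e4 : β / k * S.d i = β / (4 * k) * S.d i + β / (4 * k) * S.d i +
            β / (2 * k) * S.d i := by field_simp; ring
          linarith
      _ = K.card * (β / k * S.d i) := by rw [Finset.sum_const, nsmul_eq_mul]
      _ ≤ k * (β / k * S.d i) := by
          refine mul_le_mul_of_nonneg_right ?_ (by positivity)
          rw [hk]; linarith
      _ = β * S.d i := by field_simp
  have hgood : ∀ j, j ∉ A → ρ (φ (S.σ i s j)) (s • φ j) < δ / 2 := by
    intro j hj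
    refine hK _ _ fun t ht => ?_
    have hj' : j ∉ A1 t ∪ A2 t ∪ A3 t := fun hh => hj (Finset.mem_biUnion.2 ⟨t, ht, hh⟩)
    simp only [A1, A2, A3, Finset.mem_union, Finset.mem_filter, Finset.mem_univ, true_and,
      not_or, not_le, not_not] at hj'
    obtain ⟨⟨h1, h2⟩, h3⟩ := hj'
    rw [h3] at h1
    have h4 := h'.triangle (t • φ (S.σ i s j)) (φ (S.σ i t (S.σ i s j))) (t • s • φ j)
    have h5 := h'.symm (t • φ (S.σ i s j)) (φ (S.σ i t (S.σ i s j)))
    rw [mul_smul] at h1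
    linarith
  change dp 2 ρ (fun j => φ (S.σ i s j)) (fun j => s • φ j) ≤ δ
  rw [dp_two_le_iff h.nonneg _ _ hδ.le]
  calc ∑ j, ρ (φ (S.σ i s j)) (s • φ j) ^ 2
      ≤ ∑ j, ((δ / 2) ^ 2 + if j ∈ A then (B : ℝ) ^ 2 else 0) := by
        refine Finset.sum_le_sum fun j _ => ?_
        by_cases hj : j ∈ A
        · rw [if_pos hj]
          have := pow_le_pow_left₀ (h.nonneg _ _) (hB (φ (S.σ i s j)) (s • φ j)) 2
          have : 0 ≤ (δ / 2) ^ 2 := by positivity
          linarith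
        · rw [if_neg hj, add_zero]
          exact pow_le_pow_left₀ (h.nonneg _ _) (hgood j hj).le 2
    _ = (δ / 2) ^ 2 * S.d i + A.card * (B : ℝ) ^ 2 := by
        rw [Finset.sum_add_distrib, Finset.sum_const, Finset.card_univ, Fintype.card_fin,
          nsmul_eq_mul, Finset.sum_ite_mem, Finset.univ_inter, Finset.sum_const, nsmul_eq_mul]
        ring
    _ ≤ (δ / 2) ^ 2 * S.d i + (β * S.d i) * (B : ℝ) ^ 2 := by gcongr
    _ = (3 / 4) * (δ ^ 2 * S.d i) := by
        rw [hβ]; field_simp; ring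
    _ ≤ δ ^ 2 * S.d i := by
        have : 0 ≤ δ ^ 2 * S.d i := by positivity
        linarith

end compare

/-! ## The counting lemma -/

lemma card_le_Nsep {A : Type v} {ε : ℝ} {Y : Set A} {θ : A → A → ℝ} {Z : Finset A}
    (h1 : (Z : Set A) ⊆ Y) (h2 : ∀ z ∈ Z, ∀ w ∈ Z, z ≠ w → ε ≤ θ z w) :
    (Z.card : ℕ∞) ≤ Nsep ε Y θ :=
  le_iSup₂ (f := fun (Z : Finset A) (_ : (Z : Set A) ⊆ Y ∧ ∀ z ∈ Z, ∀ w ∈ Z, z ≠ w → ε ≤ θ z w) =>
    (Z.card : ℕ∞)) Z ⟨h1, h2⟩

/-- A maximal separated set is spanning. -/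
lemma exists_maximal {A : Type v} {ε : ℝ} {Y : Set A} {θ : A → A → ℝ}
    (hsymm : ∀ a b, θ a b = θ b a) (hfin : Nsep ε Y θ ≠ ⊤) :
    ∃ Z : Finset A, (Z.card : ℕ∞) ≤ Nsep ε Y θ ∧ ∀ y ∈ Y, ∃ z ∈ Z, y = z ∨ θ y z < ε := by
  classical
  obtain ⟨n, hn⟩ := ENat.ne_top_iff_exists.1 hfin
  -- the set of cardinalities
  let P : ℕ → Prop := fun m => ∃ Z : Finset A, Z.card = m ∧ (Z : Set A) ⊆ Y ∧
    ∀ z ∈ Z, ∀ w ∈ Z, z ≠ w → ε ≤ θ z w
  have hP0 : P 0 := ⟨∅, by simp, by simp, by simp⟩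
  have hbd : ∀ m, P m → m ≤ n := by
    rintro m ⟨Z, rfl, h1, h2⟩
    have := card_le_Nsep h1 h2
    rw [← hn] at this
    exact_mod_cast this
  have hex : ∃ m, P m ∧ ∀ m', P m' → m' ≤ m :=
    ⟨Nat.findGreatest P n, Nat.findGreatest_spec (P := P) (Nat.zero_le n) hP0,
      fun m' hm' => Nat.le_findGreatest (hbd m' hm') hm'⟩
  obtain ⟨m, ⟨Z, hZc, hZY, hZs⟩, hmax⟩ := hex
  refine ⟨Z, card_le_Nsep hZY hZs, fun y hy => ?_⟩
  by_contra hcon
  push Not at hcon
  have hyZ : y ∉ Z := fun hh => (hcon y hh).1 rfl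
  have := hmax (m + 1) ⟨insert y Z, by rw [Finset.card_insert_of_notMem hyZ, hZc],
    by
      intro z hz
      rw [Finset.coe_insert, Set.mem_insert_iff] at hz
      rcases hz with rfl | hz
      · exact hy
      · exact hZY hz,
    by
      intro z hz w hw hzw
      rw [Finset.mem_insert] at hz hw
      rcases hz with rfl | hz <;> rcases hw with rfl | hw
      · exact absurd rfl hzw
      · exact (hcon w hw).2
      · rw [hsymm]; exact (hcon z hz).2
      · exact hZs z hz w hw hzw⟩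
  omega

/-- Counting sparse functions. -/
lemma card_sparse (d K : ℕ) {lam m : ℝ} (hlam : 0 < lam) (hlam1 : lam ≤ 1) :
    ((Finset.univ.filter fun f : Fin d → Option (Fin K) =>
      ((Finset.univ.filter fun j => (f j).isSome).card : ℝ) ≤ m).card : ℝ) ≤
      lam ^ (-m) * (1 + K * lam) ^ d := by
  classical
  have hw : ∀ f : Fin d → Option (Fin K),
      ∏ j, (if (f j).isSome then lam else 1) =
        lam ^ (((Finset.univ.filter fun j => (f j).isSome).card : ℕ) : ℝ) := by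
    intro f
    rw [Finset.prod_ite, Finset.prod_const, Finset.prod_const_one, mul_one, Real.rpow_natCast]
  have hsum : ∑ f : Fin d → Option (Fin K), ∏ j, (if (f j).isSome then lam else 1) =
      (1 + K * lam) ^ d := by
    have h1 : ∏ _j : Fin d, ∑ o : Option (Fin K), (if o.isSome then lam else 1) =
        ∑ f : Fin d → Option (Fin K), ∏ j, (if (f j).isSome then lam else 1) := by
      rw [Finset.prod_univ_sum, Fintype.piFinset_univ]
    rw [← h1, Finset.prod_const, Finset.card_univ, Fintype.card_fin]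
    congr 1
    rw [Fintype.sum_option]
    simp
  calc ((Finset.univ.filter fun f : Fin d → Option (Fin K) =>
      ((Finset.univ.filter fun j => (f j).isSome).card : ℝ) ≤ m).card : ℝ)
      = ∑ f ∈ Finset.univ.filter fun f : Fin d → Option (Fin K) =>
      ((Finset.univ.filter fun j => (f j).isSome).card : ℝ) ≤ m, (1 : ℝ) := by simp
    _ ≤ ∑ f ∈ Finset.univ.filter fun f : Fin d → Option (Fin K) =>
      ((Finset.univ.filter fun j => (f j).isSome).card : ℝ) ≤ m,
        lam ^ (-m) * ∏ j, (if (f j).isSome then lam else 1) := by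
        refine Finset.sum_le_sum fun f hf => ?_
        have hf' := (Finset.mem_filter.1 hf).2
        rw [hw, ← Real.rpow_add hlam]
        exact Real.one_le_rpow_of_pos_of_le_one_of_nonpos hlam hlam1 (by linarith)
    _ ≤ ∑ f : Fin d → Option (Fin K), lam ^ (-m) * ∏ j, (if (f j).isSome then lam else 1) := by
        refine Finset.sum_le_sum_of_subset_of_nonneg (Finset.filter_subset _ _) fun f _ _ => ?_
        have : 0 ≤ ∏ j, (if (f j).isSome then lam else 1) :=
          Finset.prod_nonneg fun j _ => by split_ifs <;> linarith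
        positivity
    _ = lam ^ (-m) * (1 + K * lam) ^ d := by rw [← Finset.mul_sum, hsum]

lemma dp_symm {X : Type v} {d : ℕ} (p : ℝ≥0∞) {ρ : X → X → ℝ} (hs : ∀ x y, ρ x y = ρ y x)
    (φ ψ : Fin d → X) : dp p ρ φ ψ = dp p ρ ψ φ := by
  unfold dp
  simp_rw [hs (φ _) (ψ _)]

lemma dp_lt_imp {X : Type v} {d : ℕ} {p : ℝ≥0∞} (hp : 1 ≤ p) (hp' : p ≠ ⊤) {ρ : X → X → ℝ}
    (hρ : ∀ x y, 0 ≤ ρ x y) (φ ψ : Fin d → X) {ε r : ℝ} (hε : 0 < ε) (hr : 0 < r)
    (h : dp p ρ φ ψ < ε) :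
    ((Finset.univ.filter fun j => r ≤ ρ (φ j) (ψ j)).card : ℝ) ≤ (ε / r) ^ p.toReal * d := by
  have hpr : 1 ≤ p.toReal := by
    rw [← ENNReal.toReal_one]
    exact ENNReal.toReal_mono hp' hp
  have hpr0 : 0 < p.toReal := by linarith
  unfold dp at h
  rw [if_neg hp'] at h
  rcases Nat.eq_zero_or_pos d with h0 | h0
  · subst h0
    simp
  have hd : (0 : ℝ) < d := by exact_mod_cast h0
  have h2 : 0 ≤ (∑ j, ρ (φ j) (ψ j) ^ p.toReal) / (d : ℝ) :=
    div_nonneg (Finset.sum_nonneg fun j _ => Real.rpow_nonneg (hρ _ _) _) (by positivity)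
  have h3 : ∑ j, ρ (φ j) (ψ j) ^ p.toReal ≤ ε ^ p.toReal * d := by
    have := h.le
    rw [one_div, Real.rpow_inv_le_iff_of_pos h2 hε.le hpr0, div_le_iff₀ hd] at this
    exact this
  have h1 : ((Finset.univ.filter fun j => r ≤ ρ (φ j) (ψ j)).card : ℝ) * r ^ p.toReal ≤
      ∑ j, ρ (φ j) (ψ j) ^ p.toReal := by
    calc ((Finset.univ.filter fun j => r ≤ ρ (φ j) (ψ j)).card : ℝ) * r ^ p.toReal
        = ∑ j ∈ Finset.univ.filter fun j => r ≤ ρ (φ j) (ψ j), r ^ p.toReal := by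
          rw [Finset.sum_const, nsmul_eq_mul]
      _ ≤ ∑ j ∈ Finset.univ.filter fun j => r ≤ ρ (φ j) (ψ j), ρ (φ j) (ψ j) ^ p.toReal := by
          refine Finset.sum_le_sum fun j hj => ?_
          have := (Finset.mem_filter.1 hj).2
          exact Real.rpow_le_rpow hr.le this hpr0.le
      _ ≤ ∑ j, ρ (φ j) (ψ j) ^ p.toReal :=
          Finset.sum_le_sum_of_subset_of_nonneg (Finset.filter_subset _ _)
            fun j _ _ => Real.rpow_nonneg (hρ _ _) _
  rw [Real.div_rpow hε.le hr.le, div_mul_eq_mul_div, le_div_iff₀ (by positivity)]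
  exact h1.trans h3

lemma counting {X : Type v} {d : ℕ} {p : ℝ≥0∞} (hp : 1 ≤ p) (hp' : p ≠ ⊤) {ρ ρ' : X → X → ℝ}
    (hρ : ∀ x y, 0 ≤ ρ x y) (hρs : ∀ x y, ρ x y = ρ y x) (hρr : ∀ x, ρ x x = 0)
    (hρ's : ∀ x y, ρ' x y = ρ' y x)
    (hρ't : ∀ x y z, ρ' x z ≤ ρ' x y + ρ' y z)
    (hle : ∀ x y, ρ' x y ≤ ρ x y) {K : ℕ} (hK : 0 < K) (cell : X → Fin K)
    {ε r a : ℝ} (hε : 0 < ε) (hε1 : ε ≤ 1) (hr : 0 < r) (hεr : ε / r ≤ a) (ha : a ≤ 1)
    (hcell : ∀ x y, cell x = cell y → ρ' x y < 2 * r)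
    {Y Y' : Set (Fin d → X)} (hY : Y' ⊆ Y) :
    ((Nsep (2 * r) Y' (dp ⊤ ρ') : ℕ∞) : ℝ≥0∞) ≤
      ((Nsep ε Y (dp p ρ) : ℕ∞) : ℝ≥0∞) *
        ENNReal.ofReal (Real.exp (d * (a * (Real.log K - Real.log ε) + ε))) := by
  classical
  have hpr : 1 ≤ p.toReal := by
    rw [← ENNReal.toReal_one]
    exact ENNReal.toReal_mono hp' hp
  have hpr0 : 0 < p.toReal := by linarith
  rcases eq_or_ne (Nsep ε Y (dp p ρ)) ⊤ with htop | hfin
  · rw [htop, ENat.toENNReal_top, ENNReal.top_mul]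
    · exact le_top
    · simp [Real.exp_pos]
  obtain ⟨Z, hZ, hspan⟩ := exists_maximal (dp_symm p hρs) hfin
  have hself : ∀ φ : Fin d → X, dp p ρ φ φ = 0 := by
    intro φ
    unfold dp
    rw [if_neg hp']
    simp [hρr, Real.zero_rpow hpr0.ne', Real.zero_rpow (inv_pos.2 hpr0).ne']
  have hspan' : ∀ y ∈ Y, ∃ z ∈ Z, dp p ρ y z < ε := by
    intro y hy
    obtain ⟨z, hz, h1 | h1⟩ := hspan y hy
    · exact ⟨z, hz, by rw [h1, hself]; exact hε⟩
    · exact ⟨z, hz, h1⟩
  have hKr : (0 : ℝ) < K := by exact_mod_cast hK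
  set m : ℝ := a * d with hm
  let G := Finset.univ.filter fun f : Fin d → Option (Fin K) =>
      ((Finset.univ.filter fun j => (f j).isSome).card : ℝ) ≤ m
  have hGcard : (G.card : ℝ) ≤ Real.exp (d * (a * (Real.log K - Real.log ε) + ε)) := by
    have hlam : 0 < ε / K := by positivity
    have hlam1 : ε / K ≤ 1 := by
      rw [div_le_one hKr]
      have : (1 : ℝ) ≤ K := by exact_mod_cast hK
      linarith
    refine (card_sparse d K hlam hlam1).trans ?_
    have h1 : (ε / K) ^ (-m) = Real.exp (d * (a * (Real.log K - Real.log ε))) := by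
      rw [Real.rpow_def_of_pos hlam, Real.log_div hε.ne' hKr.ne', hm]
      congr 1; ring
    have h2 : (1 + K * (ε / K)) ^ d ≤ Real.exp (d * ε) := by
      rw [mul_div_cancel₀ _ hKr.ne', mul_comm (d : ℝ), Real.exp_mul, Real.rpow_natCast]
      refine pow_le_pow_left₀ (by positivity) ?_ _
      have := Real.add_one_le_exp ε
      linarith
    rw [h1, mul_add, Real.exp_add]
    exact mul_le_mul_of_nonneg_left h2 (Real.exp_pos _).le
  -- the main inequality
  have hmain : Nsep (2 * r) Y' (dp ⊤ ρ') ≤ Nsep ε Y (dp p ρ) * G.card := by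
    unfold Nsep
    refine iSup₂_le fun W hW => ?_
    change (W.card : ℕ∞) ≤ Nsep ε Y (dp p ρ) * G.card
    have hz : ∀ w : Fin d → X, w ∈ W → ∃ z ∈ Z, dp p ρ w z < ε := fun w hw =>
      hspan' w (hY (hW.1 hw))
    let zf : (Fin d → X) → (Fin d → X) := fun w =>
      if hw : ∃ z ∈ Z, dp p ρ w z < ε then hw.choose else w
    have hzf : ∀ w ∈ W, zf w ∈ Z ∧ dp p ρ w (zf w) < ε := by
      intro w hw
      have := hz w hw
      simp only [zf, dif_pos this]
      exact this.choose_spec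
    let cf : (Fin d → X) → (Fin d → Option (Fin K)) := fun w j =>
      if r ≤ ρ (w j) (zf w j) then some (cell (w j)) else none
    have hcf : ∀ w ∈ W, cf w ∈ G := by
      intro w hw
      refine Finset.mem_filter.2 ⟨Finset.mem_univ _, ?_⟩
      have h1 := dp_lt_imp hp hp' hρ w (zf w) hε hr (hzf w hw).2
      have h2 : (Finset.univ.filter fun j => (cf w j).isSome) =
          Finset.univ.filter fun j => r ≤ ρ (w j) (zf w j) := by
        ext j
        simp only [Finset.mem_filter, Finset.mem_univ, true_and, cf]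
        by_cases hj : r ≤ ρ (w j) (zf w j)
        · simp [hj]
        · simp [hj]
      rw [h2]
      refine h1.trans ?_
      rw [hm]
      refine mul_le_mul_of_nonneg_right ?_ (by positivity)
      have h3 : 0 < ε / r := by positivity
      calc (ε / r) ^ p.toReal ≤ (ε / r) ^ (1 : ℝ) :=
            Real.rpow_le_rpow_of_exponent_ge h3 (hεr.trans ha) hpr
        _ = ε / r := Real.rpow_one _
        _ ≤ a := hεr
    have hinj : Set.InjOn (fun w => (zf w, cf w)) (W : Set (Fin d → X)) := by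
      intro w hw w' hw' heq
      by_contra hne
      have h1 := hW.2 w hw w' hw' hne
      have hzz : zf w = zf w' := congrArg Prod.fst heq
      have hcc : cf w = cf w' := congrArg Prod.snd heq
      have hd0 : Nonempty (Fin d) := by
        by_contra hemp
        rw [not_nonempty_iff] at hemp
        exact hne (funext fun j => (hemp.false j).elim)
      have h2 : dp ⊤ ρ' w w' < 2 * r := by
        unfold dp
        rw [if_pos rfl]
        obtain ⟨j, hj⟩ := exists_eq_ciSup_of_finite (f := fun j => ρ' (w j) (w' j))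
        rw [← hj]
        have hcj := congrFun hcc j
        simp only [cf] at hcj
        by_cases hr1 : r ≤ ρ (w j) (zf w j)
        · rw [if_pos hr1] at hcj
          by_cases hr2 : r ≤ ρ (w' j) (zf w' j)
          · rw [if_pos hr2] at hcj
            exact hcell _ _ (Option.some.inj hcj)
          · rw [if_neg hr2] at hcj
            exact absurd hcj (by simp)
        · rw [if_neg hr1] at hcj
          by_cases hr2 : r ≤ ρ (w' j) (zf w' j)
          · rw [if_pos hr2] at hcj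
            exact absurd hcj (by simp)
          · push Not at hr1 hr2
            have h3 := hρ't (w j) (zf w j) (w' j)
            have h4 := hle (w j) (zf w j)
            have h5 := hle (w' j) (zf w' j)
            rw [hρ's, ← hzz] at h5
            rw [← hzz] at hr2
            linarith
      linarith
    have hcard : W.card ≤ Z.card * G.card := by
      rw [← Finset.card_product]
      refine Finset.card_le_card_of_injOn (fun w => (zf w, cf w)) (fun w hw => ?_) hinj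
      exact Finset.mem_coe.2 (Finset.mem_product.2 ⟨(hzf w hw).1, hcf w hw⟩)
    calc (W.card : ℕ∞) ≤ ((Z.card * G.card : ℕ) : ℕ∞) := by exact_mod_cast hcard
      _ = (Z.card : ℕ∞) * G.card := by push_cast; rfl
      _ ≤ Nsep ε Y (dp p ρ) * G.card := by gcongr
  calc ((Nsep (2 * r) Y' (dp ⊤ ρ') : ℕ∞) : ℝ≥0∞)
      ≤ ((Nsep ε Y (dp p ρ) * G.card : ℕ∞) : ℝ≥0∞) := by exact_mod_cast hmain
    _ = ((Nsep ε Y (dp p ρ) : ℕ∞) : ℝ≥0∞) * (G.card : ℝ≥0∞) := by
        rw [ENat.toENNReal_mul]; rfl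
    _ ≤ _ := by
        gcongr
        rw [← ENNReal.ofReal_natCast]
        exact ENNReal.ofReal_le_ofReal hGcard

/-! ## The main inequality -/

section main

variable {Γ : Type u} [Group Γ] (S : SoficApprox Γ) {X : Type v} [TopologicalSpace X]
  [CompactSpace X] [MulAction Γ X] [ContinuousConstSMul Γ X]

lemma key {p : ℝ≥0∞} (hp : 1 ≤ p) (hp' : p ≠ ⊤) {ρ ρ' : X → X → ℝ} (h : GenPseudo Γ X ρ)
    (h' : GenPseudo Γ X ρ') (hle : ∀ x y, ρ' x y ≤ ρ x y) {K : ℕ} (hK : 0 < K)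
    (cell : X → Fin K) {ε η : ℝ} (hε : 0 < ε) (hε1 : ε < 1) (hη : 0 < η)
    (hcell : ∀ x y, cell x = cell y → ρ' x y < 2 * ε ^ (1 - η))
    (hsmall : 2 * ε ^ (1 - η) < 1) {c₁ c : ℝ} (hc : atScale S p ρ ε < c₁)
    (hcc : c₁ ≤ 0 ∨ c₁ * (-Real.log ε) + (ε ^ η * (Real.log K - Real.log ε) + ε) ≤
      c * Real.log (1 / (2 * ε ^ (1 - η)))) :
    atScale S ⊤ ρ' (2 * ε ^ (1 - η)) ≤ c := by
  have hc' := hc
  unfold atScale at hc'
  simp only [iInf_lt_iff] at hc'
  obtain ⟨F, δ, hδ, hlim⟩ := hc'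
  obtain ⟨F', δ', hδ', hsub⟩ := map_compare S h h' F hδ
  have hε'0 : 0 < 2 * ε ^ (1 - η) := by positivity
  unfold atScale
  refine (iInf₂_le_of_le F' δ' (iInf_le_of_le hδ' le_rfl)).trans ?_
  refine limsup_le_of_le (by isBoundedDefault) ?_
  have hev := eventually_lt_of_limsup_lt hlim
  filter_upwards [hev, hsub, S.d_tendsto.eventually (eventually_gt_atTop 0)] with i hi hsubi hdi
  have hd : (0 : ℝ) < S.d i := by exact_mod_cast hdi
  have hL : 0 < Real.log (1 / ε) := Real.log_pos (by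
    rw [lt_div_iff₀ hε]; linarith)
  have hL' : 0 < Real.log (1 / (2 * ε ^ (1 - η))) := Real.log_pos (by
    rw [lt_div_iff₀ hε'0]; linarith)
  have hdL : 0 < (S.d i : ℝ) * Real.log (1 / ε) := by positivity
  have hdL' : 0 < (S.d i : ℝ) * Real.log (1 / (2 * ε ^ (1 - η))) := by positivity
  have hcount := counting (d := S.d i) hp hp' h.nonneg h.symm h.refl h'.symm h'.triangle hle hK cell
    (ε := ε) (r := ε ^ (1 - η)) (a := ε ^ η) hε hε1.le (by positivity)
    (by
      rw [div_le_iff₀ (by positivity), ← Real.rpow_add hε]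
      simp)
    (Real.rpow_le_one hε.le hε1.le hη.le) hcell hsubi
  rw [EReal.div_le_iff_le_mul (by exact_mod_cast hdL') (EReal.coe_ne_top _)]
  rw [EReal.div_lt_iff (by exact_mod_cast hdL) (EReal.coe_ne_top _)] at hi
  rcases hcc with hc0 | hcc
  · have h1 : ENNReal.log ((Nsep ε (MapSet S ρ F δ i) (dp p ρ) : ℕ∞) : ℝ≥0∞) < 0 := by
      refine hi.trans_le ?_
      have : c₁ * ((S.d i : ℝ) * Real.log (1 / ε)) ≤ 0 :=
        mul_nonpos_of_nonpos_of_nonneg hc0 hdL.le
      exact_mod_cast this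
    rw [ENNReal.log_lt_zero_iff] at h1
    have h2 : Nsep ε (MapSet S ρ F δ i) (dp p ρ) = 0 := by
      have h3 : Nsep ε (MapSet S ρ F δ i) (dp p ρ) < 1 := by
        rw [← ENat.toENNReal_one] at h1
        exact ENat.toENNReal_lt.1 h1
      exact Order.lt_one_iff.1 h3
    rw [h2] at hcount
    simp only [ENat.toENNReal_zero, zero_mul, nonpos_iff_eq_zero] at hcount
    rw [hcount, ENNReal.log_zero]
    exact bot_le
  · have h1 : ENNReal.log ((Nsep (2 * ε ^ (1 - η)) (MapSet S ρ' F' δ' i) (dp ⊤ ρ') : ℕ∞) : ℝ≥0∞) ≤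
        ((c₁ * ((S.d i : ℝ) * Real.log (1 / ε)) +
          (S.d i * (ε ^ η * (Real.log K - Real.log ε) + ε)) : ℝ) : EReal) := by
      refine (ENNReal.log_le_log hcount).trans ?_
      rw [ENNReal.log_mul_add, ENNReal.log_ofReal_of_pos (Real.exp_pos _), Real.log_exp,
        EReal.coe_add]
      refine add_le_add ?_ le_rfl
      exact_mod_cast hi.le
    refine h1.trans ?_
    have h2 : c₁ * ((S.d i : ℝ) * Real.log (1 / ε)) +
          (S.d i * (ε ^ η * (Real.log K - Real.log ε) + ε)) ≤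
          ((S.d i : ℝ) * Real.log (1 / (2 * ε ^ (1 - η)))) * c := by
      have h3 : Real.log (1 / ε) = -Real.log ε := by rw [one_div, Real.log_inv]
      rw [h3]
      have := mul_le_mul_of_nonneg_left hcc hd.le
      linarith
    exact_mod_cast h2

lemma tendsto_G {C η : ℝ} (hη : 0 < η) :
    Tendsto (fun ε : ℝ => ε ^ η * (C * (2 * (-Real.log ε) + 2) ^ 2 + (-Real.log ε)) + ε)
      (𝓝[>] 0) (𝓝 0) := by
  have h1 : Tendsto (fun ε : ℝ => Real.log ε * ε ^ (η / 2)) (𝓝[>] 0) (𝓝 0) :=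
    tendsto_log_mul_rpow_nhdsGT_zero (by positivity)
  have h2 : Tendsto (fun ε : ℝ => Real.log ε * ε ^ η) (𝓝[>] 0) (𝓝 0) :=
    tendsto_log_mul_rpow_nhdsGT_zero hη
  have h3 : Tendsto (fun ε : ℝ => ε ^ (η / 2)) (𝓝[>] 0) (𝓝 0) := by
    have := (Real.continuousAt_rpow_const 0 (η / 2) (Or.inr (by positivity))).tendsto
    rw [Real.zero_rpow (by positivity)] at this
    exact this.mono_left nhdsWithin_le_nhds
  have h4 : Tendsto (fun ε : ℝ => ε) (𝓝[>] 0) (𝓝 0) := tendsto_id.mono_left nhdsWithin_le_nhds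
  have h5 : Tendsto (fun ε : ℝ => 4 * C * (-(Real.log ε * ε ^ (η / 2)) + ε ^ (η / 2)) ^ 2 +
      (-(Real.log ε * ε ^ η)) + ε) (𝓝[>] 0) (𝓝 (4 * C * (-0 + 0) ^ 2 + -0 + 0)) :=
    ((((h1.neg.add h3).pow 2).const_mul _).add h2.neg).add h4
  simp only [neg_zero, add_zero, ne_eq, OfNat.ofNat_ne_zero, not_false_eq_true, zero_pow,
    mul_zero] at h5
  refine h5.congr' ?_
  filter_upwards [self_mem_nhdsWithin] with ε hε
  have hε' : (0 : ℝ) < ε := hε
  have : ε ^ η = ε ^ (η / 2) * ε ^ (η / 2) := by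
    rw [← Real.rpow_add hε']; congr 1; ring
  rw [this]; ring

lemma mdim_tame_le {p : ℝ≥0∞} (hp : 1 ≤ p) (hp' : p ≠ ⊤) {ρ : X → X → ℝ}
    (h : GenPseudo Γ X ρ) (e : ℕ → X) (he : DenseRange e) :
    mdim S ⊤ (tame ρ e) ≤ mdim S p ρ := by
  have h' := tame_gen h e he
  obtain ⟨C, hC0, hC⟩ := tame_cells h e
  -- cells at scale `ε`
  have hcells : ∀ ε : ℝ, 0 < ε → ε < 1 → ∃ (K : ℕ) (cell : X → Fin K), 0 < K ∧
      (∀ x y, cell x = cell y → tame ρ e x y < ε) ∧
      Real.log K ≤ C * (2 * (-Real.log ε) + 2) ^ 2 := by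
    intro ε hε hε1
    have hlog2 : (1 / 2 : ℝ) < Real.log 2 := by
      have := Real.log_two_gt_d9; linarith
    have hL : 0 < -Real.log ε := by
      have := Real.log_neg hε hε1; linarith
    obtain ⟨K, cell, hK, h1, h2⟩ := hC ⌈-Real.log ε / Real.log 2⌉₊
    refine ⟨K, cell, hK, fun x y hxy => (h1 x y hxy).trans_le ?_, h2.trans ?_⟩
    · rw [← Real.log_le_log_iff (by positivity) hε, Real.log_pow, one_div, Real.log_inv]
      have := Nat.le_ceil (-Real.log ε / Real.log 2)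
      rw [div_le_iff₀ (by linarith)] at this
      linarith
    · refine mul_le_mul_of_nonneg_left ?_ hC0
      refine pow_le_pow_left₀ (by positivity) ?_ 2
      have h3 := (Nat.ceil_lt_add_one (show 0 ≤ -Real.log ε / Real.log 2 by positivity)).le
      have h4 : -Real.log ε / Real.log 2 ≤ 2 * (-Real.log ε) := by
        rw [div_le_iff₀ (by linarith)]
        nlinarith
      linarith
  refine EReal.le_of_forall_lt_iff_le.1 fun c hc => ?_
  -- reduction to a frequently statement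
  have hfin : ∀ (η c₁ : ℝ), 0 < η → η < 1 → mdim S p ρ < (c₁ : ℝ) →
      (c₁ ≤ 0 ∨ ∀ᶠ ε : ℝ in 𝓝[>] 0,
        c₁ * (-Real.log ε) + (ε ^ η * (C * (2 * (-Real.log ε) + 2) ^ 2 + (-Real.log ε)) + ε) ≤
        c * ((1 - η) * (-Real.log ε) - Real.log 2)) →
      mdim S ⊤ (tame ρ e) ≤ c := by
    intro η c₁ hη hη1 hc₁ hcase
    have hfreq : ∃ᶠ ε in 𝓝[>] (0 : ℝ), atScale S p ρ ε < c₁ :=
      frequently_lt_of_liminf_lt (by isBoundedDefault) hc₁
    have htend0 : Tendsto (fun ε : ℝ => 2 * ε ^ (1 - η)) (𝓝[>] 0) (𝓝 0) := by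
      have := (Real.continuousAt_rpow_const 0 (1 - η) (Or.inr (by linarith))).tendsto
      rw [Real.zero_rpow (by linarith)] at this
      have := (this.mono_left nhdsWithin_le_nhds : Tendsto (fun ε : ℝ => ε ^ (1 - η)) (𝓝[>] 0)
        (𝓝 0)).const_mul 2
      simpa using this
    have htend : Tendsto (fun ε : ℝ => 2 * ε ^ (1 - η)) (𝓝[>] 0) (𝓝[>] 0) := by
      refine tendsto_nhdsWithin_iff.2 ⟨htend0, ?_⟩
      filter_upwards [self_mem_nhdsWithin] with ε hε
      have hε' : (0 : ℝ) < ε := hε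
      have : 0 < 2 * ε ^ (1 - η) := by positivity
      exact this
    have h1 : ∀ᶠ ε : ℝ in 𝓝[>] 0, ε < 1 := by
      have : ∀ᶠ ε : ℝ in 𝓝 0, ε < 1 := eventually_lt_nhds one_pos
      exact this.filter_mono nhdsWithin_le_nhds
    have h2 : ∀ᶠ ε : ℝ in 𝓝[>] 0, 2 * ε ^ (1 - η) < 1 :=
      htend0.eventually (eventually_lt_nhds one_pos)
    have hcase' : ∀ᶠ ε : ℝ in 𝓝[>] 0, c₁ ≤ 0 ∨
        c₁ * (-Real.log ε) + (ε ^ η * (C * (2 * (-Real.log ε) + 2) ^ 2 + (-Real.log ε)) + ε) ≤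
        c * ((1 - η) * (-Real.log ε) - Real.log 2) := by
      rcases hcase with hcase | hcase
      · exact Eventually.of_forall fun _ => Or.inl hcase
      · exact hcase.mono fun _ hh => Or.inr hh
    have hfreq2 : ∃ᶠ ε in 𝓝[>] (0 : ℝ), atScale S ⊤ (tame ρ e) (2 * ε ^ (1 - η)) ≤ c := by
      refine (hfreq.and_eventually (h1.and (h2.and (hcase'.and self_mem_nhdsWithin)))).mono ?_
      rintro ε ⟨hat, hε1, hsm, hcs, hε⟩
      have hε' : (0 : ℝ) < ε := hε
      obtain ⟨K, cell, hK, hcell, hlogK⟩ := hcells ε hε' hε1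
      refine key S hp hp' h h' (tame_le h e) hK cell hε' hε1 hη (fun x y hxy => ?_) hsm hat ?_
      · refine (hcell x y hxy).trans_le ?_
        have : ε ≤ ε ^ (1 - η) := by
          calc ε = ε ^ (1 : ℝ) := (Real.rpow_one ε).symm
            _ ≤ ε ^ (1 - η) :=
              Real.rpow_le_rpow_of_exponent_ge hε' hε1.le (by linarith)
        have h0 : 0 < ε ^ (1 - η) := by positivity
        linarith
      · rcases hcs with hcs | hcs
        · exact Or.inl hcs
        · right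
          have e1 : Real.log (1 / (2 * ε ^ (1 - η))) =
              (1 - η) * (-Real.log ε) - Real.log 2 := by
            rw [one_div, Real.log_inv, Real.log_mul (by norm_num) (by positivity),
              Real.log_rpow hε']
            ring
          rw [e1]
          refine le_trans ?_ hcs
          have e2 : ε ^ η * (Real.log K - Real.log ε) ≤
              ε ^ η * (C * (2 * (-Real.log ε) + 2) ^ 2 + (-Real.log ε)) := by
            refine mul_le_mul_of_nonneg_left ?_ (by positivity)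
            linarith
          linarith
    have hfreq3 : ∃ᶠ ε' in 𝓝[>] (0 : ℝ), atScale S ⊤ (tame ρ e) ε' ≤ c :=
      htend.frequently hfreq2
    exact liminf_le_of_frequently_le' hfreq3
  rcases le_or_gt c 0 with hc0 | hc0
  · exact hfin (1 / 2) c (by norm_num) (by norm_num) hc (Or.inl hc0)
  · have h1 : max (mdim S p ρ) ((0 : ℝ) : EReal) < (c : ℝ) :=
      max_lt hc (by exact_mod_cast hc0)
    obtain ⟨c₁, h2, h3⟩ := EReal.lt_iff_exists_real_btwn.1 h1
    have h4 : mdim S p ρ < (c₁ : ℝ) := (le_max_left _ _).trans_lt h2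
    have h5 : (0 : ℝ) < c₁ := by
      have := (le_max_right (mdim S p ρ) ((0 : ℝ) : EReal)).trans_lt h2
      exact_mod_cast this
    have h6 : c₁ < c := by exact_mod_cast h3
    have h7 : c₁ / c < 1 := (div_lt_one hc0).2 h6
    have h8 : 0 < c₁ / c := by positivity
    refine hfin ((1 - c₁ / c) / 2) c₁ (by linarith) (by linarith) h4 (Or.inr ?_)
    have hG := tendsto_G (C := C) (η := (1 - c₁ / c) / 2) (by linarith)
    have hlog : Tendsto (fun ε : ℝ => -Real.log ε) (𝓝[>] 0) atTop :=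
      tendsto_neg_atBot_atTop.comp Real.tendsto_log_nhdsGT_zero
    filter_upwards [hG.eventually (eventually_lt_nhds one_pos),
      hlog.eventually (eventually_ge_atTop ((c * Real.log 2 + 1) / ((c - c₁) / 2)))]
      with ε hε1 hε2
    rw [div_le_iff₀ (by linarith)] at hε2
    have h9 : c * (1 - (1 - c₁ / c) / 2) = (c + c₁) / 2 := by field_simp; ring
    have h10 : c * ((1 - (1 - c₁ / c) / 2) * (-Real.log ε) - Real.log 2) =
        (c + c₁) / 2 * (-Real.log ε) - c * Real.log 2 := by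
      rw [← h9]; ring
    rw [h10]
    linarith

end main

/-- The (degenerate) case of the empty space. -/
lemma mdim_top_le_of_isEmpty {Γ : Type u} [Group Γ] (S : SoficApprox Γ) {X : Type v}
    [MulAction Γ X] [IsEmpty X] (p : ℝ≥0∞) (ρ : X → X → ℝ) : mdim S ⊤ ρ ≤ mdim S p ρ := by
  unfold mdim
  refine liminf_le_liminf ?_
  have h1 : ∀ᶠ ε : ℝ in 𝓝[>] 0, ε < 1 := by
    have : ∀ᶠ ε : ℝ in 𝓝 0, ε < 1 := eventually_lt_nhds one_pos
    exact this.filter_mono nhdsWithin_le_nhds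
  filter_upwards [h1, self_mem_nhdsWithin] with ε h1 h0
  have h0' : (0 : ℝ) < ε := h0
  unfold atScale
  refine iInf_mono fun F => iInf_mono fun δ => iInf_mono fun hδ => ?_
  refine limsup_le_limsup ?_
  filter_upwards [S.d_tendsto.eventually (eventually_gt_atTop 0)] with i hdi
  refine EReal.div_le_div_right_of_nonneg ?_ ?_
  · have : 0 ≤ Real.log (1 / ε) := Real.log_nonneg (by
      rw [le_div_iff₀ h0']; linarith)
    have h3 : (0 : ℝ) ≤ (S.d i : ℝ) * Real.log (1 / ε) := by positivity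
    exact_mod_cast h3
  · refine ENNReal.log_le_log ?_
    have h2 : Nsep ε (MapSet S ρ F δ i) (dp ⊤ ρ) ≤ Nsep ε (MapSet S ρ F δ i) (dp p ρ) := by
      refine iSup₂_le fun Z hZ => ?_
      have : Z = ∅ := by
        refine Finset.eq_empty_of_forall_notMem fun z _ => ?_
        exact isEmptyElim (z ⟨0, hdi⟩)
      rw [this]
      simp
    exact_mod_cast h2

/-- **MP_9d0111, Q1 (positive answer).**  For every countable sofic group, every sofic
approximation, every `1 ≤ p < ∞` and every action by homeomorphisms on a compact metrizable space,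
the `p`-metric mean dimension equals the sofic metric mean dimension. -/
theorem result (Γ : Type u) [Group Γ] [Countable Γ] (S : SoficApprox Γ) (X : Type v)
    [TopologicalSpace X] [CompactSpace X] [TopologicalSpace.MetrizableSpace X] [MulAction Γ X]
    [ContinuousConstSMul Γ X] (p : ℝ≥0∞) (hp : 1 ≤ p) (hp' : p ≠ ⊤) :
    mdimM S X p = mdimM S X ⊤ := by
  refine le_antisymm ?_ ?_
  · exact iInf₂_mono fun ρ hρ => mdim_le_top S hp hp' hρ.nonneg
  · refine le_iInf₂ fun ρ hρ => ?_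
    rcases isEmpty_or_nonempty X with hX | hX
    · exact (iInf₂_le ρ hρ).trans (mdim_top_le_of_isEmpty S p ρ)
    · let _ := TopologicalSpace.metrizableSpaceMetric X
      obtain ⟨e, he⟩ := TopologicalSpace.exists_dense_seq X
      exact (iInf₂_le (tame ρ e) (tame_gen hρ e he)).trans (mdim_tame_le S hp hp' hρ e he)

end Pool.Agent.Results.MP_9d0111_an.PMetric
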